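import Mathlib
import Pool.Agent.H743R2.NW6

/-!
# Normal weighted composition operators on the Hardy space `H²`

Let `φ` be an analytic self-map of the unit disc `U` and `ψ` analytic on `U`.  We show that if the
weighted composition operator `T f = ψ · (f ∘ φ)` is bounded and normal on `H²`, `ψ` is not
identically zero and `φ` is not constant, then `φ` is linear fractional (`normal_linearFractional`).
Hence (`result`) for a self-map `φ` without fixed point in `U` that is not linear fractional the
only bounded normal weighted composition operator is the zero operator.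

Idea.  `T` is injective, and there is an isometry `W` with `W T = T* = T W`.  Let `S` be the shift,
`M` the multiplication by `φ` and `b = φ(0)`; then `T S = M T`.  The operator `B = W M* W*`
satisfies `T B = S* T`, and therefore `B (S - b)` commutes with `S`.  Operators commuting with the
shift are hyponormal, with defect a Hankel form.  Hyponormality of `M` says that `B` is
co-hyponormal, hyponormality of `B (S - b) (1 - conj b S)⁻¹` says the opposite up to two linear
conditions, so both Hankel forms vanish on a subspace of codimension at most two.  Therefore both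
`φ` and the symbol `γ` of `B (S - b) (1 - conj b S)⁻¹` are rational of degree at most two, and
`z (1 - conj b φ(z)) γ(φ(z)) = φ(z) - b` is a rational left inverse for `φ`; so `φ` has degree one.
-/

set_option autoImplicit false

open Metric Set

namespace Pool.Agent.Results.MP_4d0082_an.NormalWeightedComposition

/-- The Hardy space `H²` of the unit disc: square-summable sequences of Taylor coefficients. -/
abbrev H2 : Type := ↥(lp (fun _ : ℕ => ℂ) 2)

/-- The open unit disc. -/
abbrev U : Set ℂ := ball (0 : ℂ) 1

/-- The value at `z` of the function whose Taylor coefficients are `f`. -/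
noncomputable def val (f : H2) (z : ℂ) : ℂ := ∑' n : ℕ, f n * z ^ n

/-- `T` is the (bounded) weighted composition operator `f ↦ ψ · (f ∘ φ)` on the Hardy space. -/
def IsWeightedComposition (ψ φ : ℂ → ℂ) (T : H2 →L[ℂ] H2) : Prop :=
  ∀ f : H2, ∀ z ∈ U, val (T f) z = ψ z * val f (φ z)

/-- `φ` is linear fractional on the disc: `φ(z) = (a z + b) / (c z + d)` with `a d - b c ≠ 0`. -/
def IsLinearFractional (φ : ℂ → ℂ) : Prop :=
  ∃ a b c d : ℂ, a * d - b * c ≠ 0 ∧ ∀ z ∈ U, c * z + d ≠ 0 ∧ φ z = (a * z + b) / (c * z + d)

/-- If a weighted composition operator with analytic symbols, `ψ ≢ 0` and `φ` nonconstant, is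
bounded and normal on `H²`, then `φ` is linear fractional. -/
theorem normal_linearFractional {φ ψ : ℂ → ℂ} (hφ : DifferentiableOn ℂ φ U) (hself : MapsTo φ U U)
    (hψ : DifferentiableOn ℂ ψ U) (hψ0 : ¬ ∀ z ∈ U, ψ z = 0) (hc : ¬ ∃ w, ∀ z ∈ U, φ z = w)
    (T : H2 →L[ℂ] H2) (hT : IsWeightedComposition ψ φ T) (hn : IsStarNormal T) :
    IsLinearFractional φ :=
  Pool.Agent.H743R2.NW.normal_lf hφ hself hψ hψ0 hc T hT hn

/-- **Answer to Q1.**  Let `φ` be an analytic self-map of the unit disc `U` that has no fixed point
in `U` and is not linear fractional, and let `ψ` be analytic on `U`.  Then `f ↦ ψ · (f ∘ φ)` is a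
bounded normal operator on `H²` if and only if `ψ` is identically zero. -/
theorem result (φ ψ : ℂ → ℂ) (hφ : DifferentiableOn ℂ φ U) (hself : MapsTo φ U U)
    (hψ : DifferentiableOn ℂ ψ U) (hfix : ∀ z ∈ U, φ z ≠ z) (hlf : ¬ IsLinearFractional φ) :
    (∃ T : H2 →L[ℂ] H2, IsWeightedComposition ψ φ T ∧ IsStarNormal T) ↔ ∀ z ∈ U, ψ z = 0 := by
  constructor
  · rintro ⟨T, hT, hn⟩
    by_contra hψ0
    refine hlf (normal_linearFractional hφ hself hψ hψ0 ?_ T hT hn)
    rintro ⟨w, hw⟩
    have h0 : (0 : ℂ) ∈ U := mem_ball_self one_pos
    have hwU : w ∈ U := by rw [← hw 0 h0]; exact hself h0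
    exact hfix w hwU (hw w hwU)
  · intro h
    refine ⟨0, fun f z hz => ?_, inferInstance⟩
    rw [h z hz, zero_mul]
    simp [val]

end Pool.Agent.Results.MP_4d0082_an.NormalWeightedComposition
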